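import Pool.Agent.R567.HT.UP

set_option autoImplicit false

namespace Pool.Agent.Run7.h986.TF

open Pool.Agent.R499.HT

section nd
variable {G : Type} [Group G]

/-- the inequality for the triple `1, x, x y` -/
lemma nd_three (d : G → ℝ) (hd : ND d) (x y : G) (a b : ℝ) :
    a * b * d (x * y) ≤ (a + b) * (a * d x + b * d y) := by
  have h := hd.neg 3 ![1, x, x * y] ![(a : ℂ), (-(a + b) : ℝ), (b : ℂ)] (by
    simp [Fin.sum_univ_three])
  simp only [Fin.sum_univ_three, Matrix.cons_val_zero, Matrix.cons_val_one, Matrix.cons_val,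
    Complex.conj_ofReal, inv_one, one_mul, mul_one, mul_inv_rev, inv_mul_cancel_left,
    inv_mul_cancel, hd.one] at h
  have e1 : d x⁻¹ = d x := hd.symm x
  have e2 : d (y⁻¹ * x⁻¹) = d (x * y) := by rw [← mul_inv_rev, hd.symm]
  have e3 : d (y⁻¹ * x⁻¹ * x) = d y := by rw [inv_mul_cancel_right, hd.symm]
  have e4 : d (y⁻¹ * x⁻¹ * (x * y)) = 0 := by
    rw [show y⁻¹ * x⁻¹ * (x * y) = 1 by group, hd.one]
  rw [e1, e2, e3, e4] at h
  norm_cast at h
  nlinarith

/-- the inequality for the quadruple `1, x, y, x y`, `x` and `y` commuting -/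
lemma nd_four (d : G → ℝ) (hd : ND d) (x y : G) (hxy : x * y = y * x) :
    d (x * y) + d (x⁻¹ * y) ≤ 2 * d x + 2 * d y := by
  have h := hd.neg 4 ![1, x, y, x * y] ![(1 : ℂ), (-1 : ℂ), (-1 : ℂ), (1 : ℂ)] (by
    simp [Fin.sum_univ_four])
  simp only [Fin.sum_univ_four, Matrix.cons_val_zero, Matrix.cons_val_one, Matrix.cons_val,
    map_one, map_neg, inv_one, one_mul, mul_one, mul_inv_rev, inv_mul_cancel_left,
    inv_mul_cancel, hd.one] at h
  have e1 : d x⁻¹ = d x := hd.symm x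
  have e1' : d y⁻¹ = d y := hd.symm y
  have e2 : d (y⁻¹ * x⁻¹) = d (x * y) := by rw [← mul_inv_rev, hd.symm]
  have e3 : d (y⁻¹ * x⁻¹ * x) = d y := by rw [inv_mul_cancel_right, hd.symm]
  have e4 : d (y⁻¹ * x⁻¹ * (x * y)) = 0 := by
    rw [show y⁻¹ * x⁻¹ * (x * y) = 1 by group, hd.one]
  have e5 : d (y⁻¹ * x) = d (x⁻¹ * y) := by
    rw [← hd.symm (y⁻¹ * x)]
    congr 1
    group
  have e6 : d (y⁻¹ * (x * y)) = d x := by
    rw [hxy, inv_mul_cancel_left]
  have e7 : d (y⁻¹ * x⁻¹ * y) = d x := by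
    rw [← hd.symm (y⁻¹ * x⁻¹ * y)]
    have : (y⁻¹ * x⁻¹ * y)⁻¹ = y⁻¹ * (x * y) := by group
    rw [this, e6]
  simp only [e1, e1', e2, e3, e4, e5, e6, e7] at h
  norm_num at h
  norm_cast at h
  linarith

lemma sqrt_sub (d : G → ℝ) (hd : ND d) (x y : G) :
    Real.sqrt (d (x * y)) ≤ Real.sqrt (d x) + Real.sqrt (d y) := by
  apply le_of_forall_pos_le_add
  intro ε hε
  have hp := Real.sqrt_nonneg (d x)
  have hq := Real.sqrt_nonneg (d y)
  have hp2 := Real.sq_sqrt (hd.nonneg x)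
  have hq2 := Real.sq_sqrt (hd.nonneg y)
  set p := Real.sqrt (d x)
  set q := Real.sqrt (d y)
  rw [Real.sqrt_le_iff]
  refine ⟨by positivity, ?_⟩
  have h := nd_three d hd x y (q + ε / 2) (p + ε / 2)
  rw [← hp2, ← hq2] at h
  have hpp : 0 < p + ε / 2 := by positivity
  have hqq : 0 < q + ε / 2 := by positivity
  have h1 : (q + ε / 2) * (p + ε / 2) * d (x * y) ≤
      (q + ε / 2) * (p + ε / 2) * (p + q + ε) ^ 2 := by
    refine h.trans ?_
    have h2 : (q + ε / 2) * p ^ 2 + (p + ε / 2) * q ^ 2 ≤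
        (q + ε / 2) * (p + ε / 2) ^ 2 + (p + ε / 2) * (q + ε / 2) ^ 2 := by
      have a1 : p ^ 2 ≤ (p + ε / 2) ^ 2 := by gcongr; linarith
      have a2 : q ^ 2 ≤ (q + ε / 2) ^ 2 := by gcongr; linarith
      have := mul_le_mul_of_nonneg_left a1 hqq.le
      have := mul_le_mul_of_nonneg_left a2 hpp.le
      linarith
    have h3 := mul_le_mul_of_nonneg_left h2 (show 0 ≤ q + ε / 2 + (p + ε / 2) by positivity)
    refine h3.trans (le_of_eq ?_)
    ring
  have h4 : 0 < (q + ε / 2) * (p + ε / 2) := by positivity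
  have := le_of_mul_le_mul_left h1 h4
  linarith

lemma sqrt_conj (d : G → ℝ) (hd : ND d) (g h : G) :
    Real.sqrt (d (g * h * g⁻¹)) ≤ Real.sqrt (d h) + 2 * Real.sqrt (d g) := by
  have h1 := sqrt_sub d hd (g * h) g⁻¹
  have h2 := sqrt_sub d hd g h
  rw [hd.symm] at h1
  linarith

/-- averages over conjugates -/
lemma sum_conj (d : G → ℝ) (hd : ND d) (g : G) (c : ℝ) (hc : 2 * Real.sqrt (d g) ≤ c)
    {ι : Type} [Fintype ι] [Nonempty ι] (f : ι → G) (A : ℝ) (hA : 0 ≤ A)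
    (h : ∑ i, d (f i) ≤ Fintype.card ι * A ^ 2) :
    ∑ i, d (g * f i * g⁻¹) ≤ Fintype.card ι * (A + c) ^ 2 := by
  have hc0 : 0 ≤ c := le_trans (by positivity) hc
  set N : ℝ := (Fintype.card ι : ℝ) with hN
  have hNpos : 0 < N := by
    rw [hN]; exact_mod_cast Fintype.card_pos
  have h1 : ∀ i, d (g * f i * g⁻¹) ≤ d (f i) + 2 * c * Real.sqrt (d (f i)) + c ^ 2 := by
    intro i
    have a1 := sqrt_conj d hd g (f i)
    have a2 : Real.sqrt (d (g * f i * g⁻¹)) ≤ Real.sqrt (d (f i)) + c := by linarith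
    have a3 := Real.sq_sqrt (hd.nonneg (g * f i * g⁻¹))
    have a4 := Real.sq_sqrt (hd.nonneg (f i))
    have a5 := pow_le_pow_left₀ (Real.sqrt_nonneg _) a2 2
    nlinarith
  have h2 : (∑ i, Real.sqrt (d (f i))) ^ 2 ≤ N * ∑ i, d (f i) := by
    have := sq_sum_le_card_mul_sum_sq (s := (Finset.univ : Finset ι))
      (f := fun i => Real.sqrt (d (f i)))
    simp only [Real.sq_sqrt (hd.nonneg _), Finset.card_univ] at this
    exact this
  have h3 : ∑ i, Real.sqrt (d (f i)) ≤ N * A := by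
    apply le_of_sq_le_sq _ (by positivity)
    calc (∑ i, Real.sqrt (d (f i))) ^ 2 ≤ N * ∑ i, d (f i) := h2
      _ ≤ N * (N * A ^ 2) := by gcongr
      _ = (N * A) ^ 2 := by ring
  calc ∑ i, d (g * f i * g⁻¹)
      ≤ ∑ i, (d (f i) + 2 * c * Real.sqrt (d (f i)) + c ^ 2) := Finset.sum_le_sum fun i _ => h1 i
    _ = ∑ i, d (f i) + 2 * c * ∑ i, Real.sqrt (d (f i)) + N * c ^ 2 := by
        rw [Finset.sum_add_distrib, Finset.sum_add_distrib, ← Finset.mul_sum, Finset.sum_const,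
          Finset.card_univ, nsmul_eq_mul]
    _ ≤ N * A ^ 2 + 2 * c * (N * A) + N * c ^ 2 := by gcongr
    _ = N * (A + c) ^ 2 := by ring

/-- the doubling step -/
lemma sum_double (d : G → ℝ) (hd : ND d) {ι : Type} [Fintype ι] [Nonempty ι] (u v : ι → G)
    (huv : ∀ i j, u i * v j = v j * u i) (σ : ι ≃ ι) (hσ : ∀ i, u (σ i) = (u i)⁻¹) (B : ℝ)
    (hu : ∑ i, d (u i) ≤ Fintype.card ι * B) (hv : ∑ i, d (v i) ≤ Fintype.card ι * B) :
    ∑ p : ι × ι, d (u p.1 * v p.2) ≤ Fintype.card (ι × ι) * (2 * B) := by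
  set N : ℝ := (Fintype.card ι : ℝ) with hN
  have e : ∑ p : ι × ι, d (u p.1 * v p.2) = ∑ p : ι × ι, d ((u p.1)⁻¹ * v p.2) := by
    rw [Fintype.sum_prod_type, Fintype.sum_prod_type, ← Equiv.sum_comp σ]
    refine Finset.sum_congr rfl fun i _ => ?_
    simp only [hσ]
  have h1 : ∑ p : ι × ι, (d (u p.1 * v p.2) + d ((u p.1)⁻¹ * v p.2)) ≤
      ∑ p : ι × ι, (2 * d (u p.1) + 2 * d (v p.2)) :=
    Finset.sum_le_sum fun p _ => nd_four d hd _ _ (huv _ _)
  rw [Finset.sum_add_distrib, ← e, Finset.sum_add_distrib] at h1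
  have e1 : ∑ p : ι × ι, 2 * d (u p.1) = 2 * (N * ∑ i, d (u i)) := by
    rw [Fintype.sum_prod_type]
    simp only [Finset.sum_const, Finset.card_univ, nsmul_eq_mul]
    rw [← Finset.mul_sum, ← Finset.mul_sum]
    ring
  have e2 : ∑ p : ι × ι, 2 * d (v p.2) = 2 * (N * ∑ i, d (v i)) := by
    rw [Fintype.sum_prod_type]
    simp only [← Finset.mul_sum, Finset.sum_const, Finset.card_univ, nsmul_eq_mul]
    ring
  rw [e1, e2] at h1
  have hN0 : 0 ≤ N := by positivity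
  have h2 := mul_le_mul_of_nonneg_left hu hN0
  have h3 := mul_le_mul_of_nonneg_left hv hN0
  rw [Fintype.card_prod]
  push_cast
  nlinarith

end nd

end Pool.Agent.Run7.h986.TF
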