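import Pool.Agent.Run7.h986.TF.Low
import Pool.Agent.Run7.h986.TF.Avg
import Pool.Agent.R796.HT.BS

set_option autoImplicit false

namespace Pool.Agent.Run7.h986.TF

open Pool.Agent.R499.HT

section upp
variable {G : Type} [Group G]

lemma norm_lam_mul (g : G) (T : L2 G →L[ℂ] L2 G) (v : L2 G) : ‖(lam g * T) v‖ = ‖T v‖ := by
  rw [ContinuousLinearMap.mul_apply]
  exact (lt g).norm_map _

lemma lam_one : lam (1 : G) = 1 := by
  ext f x
  rw [lam_apply, ContinuousLinearMap.one_apply]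
  simp

lemma norm_lam_le (g : G) : ‖lam g‖ ≤ 1 := by
  refine ContinuousLinearMap.opNorm_le_bound _ zero_le_one fun v => ?_
  rw [one_mul]
  exact ((lt g).norm_map v).le

/-- the four term element -/
lemma norm_four (a b : G) :
    ‖lam (a * b) + lam (a * b⁻¹) + lam (a⁻¹ * b) - lam (a⁻¹ * b⁻¹)‖ ≤ Real.sqrt 8 := by
  refine ContinuousLinearMap.opNorm_le_bound _ (Real.sqrt_nonneg _) fun v => ?_
  have e : (lam (a * b) + lam (a * b⁻¹) + lam (a⁻¹ * b) - lam (a⁻¹ * b⁻¹)) v =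
      lam a (lam b v + lam b⁻¹ v) + lam a⁻¹ (lam b v - lam b⁻¹ v) := by
    rw [map_add, map_sub]
    simp only [ContinuousLinearMap.sub_apply, ContinuousLinearMap.add_apply, lam_mul,
      ContinuousLinearMap.mul_apply]
    abel
  rw [e]
  have h1 : ‖lam a (lam b v + lam b⁻¹ v)‖ = ‖lam b v + lam b⁻¹ v‖ := (lt a).norm_map _
  have h2 : ‖lam a⁻¹ (lam b v - lam b⁻¹ v)‖ = ‖lam b v - lam b⁻¹ v‖ := (lt a⁻¹).norm_map _
  have h3 : ‖lam b v‖ = ‖v‖ := (lt b).norm_map _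
  have h4 : ‖lam b⁻¹ v‖ = ‖v‖ := (lt b⁻¹).norm_map _
  have h5 := parallelogram_law_with_norm ℂ (lam b v) (lam b⁻¹ v)
  rw [h3, h4] at h5
  have h6 := norm_add_le (lam a (lam b v + lam b⁻¹ v)) (lam a⁻¹ (lam b v - lam b⁻¹ v))
  rw [h1, h2] at h6
  have h7 : (‖lam b v + lam b⁻¹ v‖ + ‖lam b v - lam b⁻¹ v‖) ^ 2 ≤ (Real.sqrt 8 * ‖v‖) ^ 2 := by
    rw [mul_pow, Real.sq_sqrt (by norm_num)]
    nlinarith [sq_nonneg (‖lam b v + lam b⁻¹ v‖ - ‖lam b v - lam b⁻¹ v‖)]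
  exact h6.trans ((pow_le_pow_iff_left₀ (by positivity) (by positivity) (by norm_num)).1 h7)

lemma lam_conj_sum {ι : Type} [Fintype ι] (g : G) (f : ι → G) (c : ι → ℂ) :
    ∑ i, c i • lam (g * f i * g⁻¹) = lam g * (∑ i, c i • lam (f i)) * lam g⁻¹ := by
  rw [Finset.mul_sum, Finset.sum_mul]
  refine Finset.sum_congr rfl fun i _ => ?_
  rw [lam_mul, lam_mul, mul_smul_comm, smul_mul_assoc]

lemma norm_conj_le {ι : Type} [Fintype ι] (g : G) (f : ι → G) (c : ι → ℂ) :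
    ‖∑ i, c i • lam (g * f i * g⁻¹)‖ ≤ ‖∑ i, c i • lam (f i)‖ := by
  rw [lam_conj_sum]
  calc ‖lam g * (∑ i, c i • lam (f i)) * lam g⁻¹‖
      ≤ ‖lam g * (∑ i, c i • lam (f i))‖ * ‖lam g⁻¹‖ := norm_mul_le _ _
    _ ≤ ‖lam g * (∑ i, c i • lam (f i))‖ * 1 := by
        gcongr
        exact norm_lam_le _
    _ ≤ (‖lam g‖ * ‖∑ i, c i • lam (f i)‖) * 1 := by
        gcongr
        exact norm_mul_le _ _
    _ ≤ (1 * ‖∑ i, c i • lam (f i)‖) * 1 := by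
        gcongr
        exact norm_lam_le _
    _ = _ := by ring

lemma norm_prod_le {ι : Type} [Fintype ι] (u v : ι → G) (c : ι → ℂ) :
    ‖∑ p : ι × ι, (c p.1 * c p.2) • lam (u p.1 * v p.2)‖ ≤
      ‖∑ i, c i • lam (u i)‖ * ‖∑ i, c i • lam (v i)‖ := by
  have : ∑ p : ι × ι, (c p.1 * c p.2) • lam (u p.1 * v p.2) =
      (∑ i, c i • lam (u i)) * (∑ i, c i • lam (v i)) := by
    rw [Fintype.sum_prod_type, Finset.sum_mul_sum]
    refine Finset.sum_congr rfl fun i _ => Finset.sum_congr rfl fun j _ => ?_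
    rw [lam_mul, smul_mul_smul_comm]
  rw [this]
  exact norm_mul_le _ _

end upp

/-- a finite symmetric family of distinct commuting elements of `Q` -/
structure Fam (G : Type) [Group G] (Q : Subgroup G) (ι : Type) (f : ι → G) (σ : ι ≃ ι) : Prop where
  mem : ∀ i, f i ∈ Q
  inj : Function.Injective f
  comm : ∀ i j, f i * f j = f j * f i
  symm : ∀ i, f (σ i) = (f i)⁻¹

section conf
variable {G : Type} [Group G] {Q : Subgroup G} {g0 g1 : G}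

lemma inj_step
    (hi : ∀ q ∈ Q, ∀ r ∈ Q, g0 * q * g0⁻¹ = g1 * r * g1⁻¹ → q = 1)
    {q q' r r' : G} (hq : q ∈ Q) (hq' : q' ∈ Q) (hr : r ∈ Q) (hr' : r' ∈ Q)
    (h : (g0 * q * g0⁻¹) * (g1 * r * g1⁻¹) = (g0 * q' * g0⁻¹) * (g1 * r' * g1⁻¹)) :
    q = q' ∧ r = r' := by
  have e1 : g0 * (q'⁻¹ * q) * g0⁻¹ = g1 * (r' * r⁻¹) * g1⁻¹ := by
    have e2 : (g0 * q' * g0⁻¹)⁻¹ * (g0 * q * g0⁻¹) = (g1 * r' * g1⁻¹) * (g1 * r * g1⁻¹)⁻¹ := by
      rw [inv_mul_eq_iff_eq_mul, ← mul_assoc, eq_mul_inv_iff_mul_eq]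
      exact h
    calc g0 * (q'⁻¹ * q) * g0⁻¹ = (g0 * q' * g0⁻¹)⁻¹ * (g0 * q * g0⁻¹) := by group
      _ = (g1 * r' * g1⁻¹) * (g1 * r * g1⁻¹)⁻¹ := e2
      _ = _ := by group
  have e3 := hi _ (Q.mul_mem (Q.inv_mem hq') hq) _ (Q.mul_mem hr' (Q.inv_mem hr)) e1
  have e4 : q = q' := by
    rw [inv_mul_eq_one] at e3
    exact e3.symm
  refine ⟨e4, ?_⟩
  rw [e4] at h
  have := mul_left_cancel h
  have := mul_right_cancel this
  exact mul_left_cancel this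

lemma comm_conj (g : G) {a b : G} (h : a * b = b * a) :
    (g * a * g⁻¹) * (g * b * g⁻¹) = (g * b * g⁻¹) * (g * a * g⁻¹) := by
  calc (g * a * g⁻¹) * (g * b * g⁻¹) = g * (a * b) * g⁻¹ := by group
    _ = g * (b * a) * g⁻¹ := by rw [h]
    _ = _ := by group

lemma fam_step
    (h0 : ∀ q ∈ Q, g0 * q * g0⁻¹ ∈ Q) (h1 : ∀ q ∈ Q, g1 * q * g1⁻¹ ∈ Q)
    (hc : ∀ q ∈ Q, ∀ r ∈ Q,
      (g0 * q * g0⁻¹) * (g1 * r * g1⁻¹) = (g1 * r * g1⁻¹) * (g0 * q * g0⁻¹))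
    (hi : ∀ q ∈ Q, ∀ r ∈ Q, g0 * q * g0⁻¹ = g1 * r * g1⁻¹ → q = 1)
    {ι : Type} {f : ι → G} {σ : ι ≃ ι} (F : Fam G Q ι f σ) :
    Fam G Q (ι × ι) (fun p => (g0 * f p.1 * g0⁻¹) * (g1 * f p.2 * g1⁻¹)) (σ.prodCongr σ) where
  mem p := Q.mul_mem (h0 _ (F.mem _)) (h1 _ (F.mem _))
  inj := by
    intro p p' h
    have := inj_step hi (F.mem _) (F.mem _) (F.mem _) (F.mem _) h
    exact Prod.ext (F.inj this.1) (F.inj this.2)
  comm := by
    intro p p'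
    have a1 : Commute (g0 * f p.1 * g0⁻¹) (g0 * f p'.1 * g0⁻¹) := comm_conj g0 (F.comm _ _)
    have a2 : Commute (g1 * f p.2 * g1⁻¹) (g1 * f p'.2 * g1⁻¹) := comm_conj g1 (F.comm _ _)
    have a3 : Commute (g0 * f p.1 * g0⁻¹) (g1 * f p'.2 * g1⁻¹) := hc _ (F.mem _) _ (F.mem _)
    have a4 : Commute (g0 * f p'.1 * g0⁻¹) (g1 * f p.2 * g1⁻¹) := hc _ (F.mem _) _ (F.mem _)
    exact ((a1.mul_right a3).mul_left (a4.symm.mul_right a2)).eq
  symm := by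
    intro p
    show (g0 * f (σ p.1) * g0⁻¹) * (g1 * f (σ p.2) * g1⁻¹) = _
    rw [F.symm, F.symm, mul_inv_rev]
    have e0 : g0 * (f p.1)⁻¹ * g0⁻¹ = (g0 * f p.1 * g0⁻¹)⁻¹ := by group
    have e1 : g1 * (f p.2)⁻¹ * g1⁻¹ = (g1 * f p.2 * g1⁻¹)⁻¹ := by group
    rw [e0, e1, ← mul_inv_rev, ← mul_inv_rev]
    congr 1
    exact (hc _ (F.mem _) _ (F.mem _)).symm

/-- the state of the recursion -/
def St (Q : Subgroup G) (d : G → ℝ) (n : ℕ) (A R : ℝ) : Prop :=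
  ∃ (ι : Type) (_ : Fintype ι) (_ : Nonempty ι) (f : ι → G) (σ : ι ≃ ι) (ε : ι → ℝ),
    Fam G Q ι f σ ∧ Fintype.card ι = n ∧ (∀ i, ε i = 1 ∨ ε i = -1) ∧
    ∑ i, d (f i) ≤ n * A ^ 2 ∧ ‖∑ i, ((ε i : ℝ) : ℂ) • lam (f i)‖ ≤ R

lemma st_step (d : G → ℝ) (hd : ND d)
    (h0 : ∀ q ∈ Q, g0 * q * g0⁻¹ ∈ Q) (h1 : ∀ q ∈ Q, g1 * q * g1⁻¹ ∈ Q)
    (hc : ∀ q ∈ Q, ∀ r ∈ Q,
      (g0 * q * g0⁻¹) * (g1 * r * g1⁻¹) = (g1 * r * g1⁻¹) * (g0 * q * g0⁻¹))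
    (hi : ∀ q ∈ Q, ∀ r ∈ Q, g0 * q * g0⁻¹ = g1 * r * g1⁻¹ → q = 1) (c : ℝ)
    (hc0 : 2 * Real.sqrt (d g0) ≤ c) (hc1 : 2 * Real.sqrt (d g1) ≤ c)
    {n : ℕ} {A A' R : ℝ} (hA : 0 ≤ A) (hA' : Real.sqrt 2 * (A + c) ≤ A') (S : St Q d n A R) :
    St Q d (n * n) A' (R * R) := by
  obtain ⟨ι, i1, i2, f, σ, ε, F, rfl, hε, ha, hn⟩ := S
  have hcc : 0 ≤ c := le_trans (by positivity) hc0
  refine ⟨ι × ι, inferInstance, inferInstance, _, _, fun p => ε p.1 * ε p.2,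
    fam_step h0 h1 hc hi F, Fintype.card_prod _ _, ?_, ?_, ?_⟩
  · intro p
    rcases hε p.1 with h | h <;> rcases hε p.2 with h' | h' <;> simp [h, h']
  · have b1 := sum_conj d hd g0 c hc0 f A hA ha
    have b2 := sum_conj d hd g1 c hc1 f A hA ha
    have b3 := sum_double d hd (fun i => g0 * f i * g0⁻¹) (fun i => g1 * f i * g1⁻¹)
      (fun i j => hc _ (F.mem i) _ (F.mem j)) σ (fun i => by rw [F.symm]; group)
      ((A + c) ^ 2) b1 b2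
    refine b3.trans ?_
    rw [Fintype.card_prod]
    have b4 : 2 * (A + c) ^ 2 ≤ A' ^ 2 := by
      calc 2 * (A + c) ^ 2 = (Real.sqrt 2 * (A + c)) ^ 2 := by
            rw [mul_pow, Real.sq_sqrt (by norm_num)]
        _ ≤ A' ^ 2 := by gcongr
    gcongr
  · have b1 := norm_prod_le (fun i => g0 * f i * g0⁻¹) (fun i => g1 * f i * g1⁻¹)
      (fun i => ((ε i : ℝ) : ℂ))
    have b2 := norm_conj_le g0 f (fun i => ((ε i : ℝ) : ℂ))
    have b3 := norm_conj_le g1 f (fun i => ((ε i : ℝ) : ℂ))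
    simp only [Complex.ofReal_mul]
    refine b1.trans ?_
    exact mul_le_mul (b2.trans hn) (b3.trans hn) (norm_nonneg _) (le_trans (norm_nonneg _) hn)

lemma st_base (d : G → ℝ)
    (h0 : ∀ q ∈ Q, g0 * q * g0⁻¹ ∈ Q) (h1 : ∀ q ∈ Q, g1 * q * g1⁻¹ ∈ Q)
    (hc : ∀ q ∈ Q, ∀ r ∈ Q,
      (g0 * q * g0⁻¹) * (g1 * r * g1⁻¹) = (g1 * r * g1⁻¹) * (g0 * q * g0⁻¹))
    (hi : ∀ q ∈ Q, ∀ r ∈ Q, g0 * q * g0⁻¹ = g1 * r * g1⁻¹ → q = 1)
    (x : G) (hx : x ∈ Q) (hx2 : x⁻¹ ≠ x) : ∃ A : ℝ, 0 ≤ A ∧ St Q d 4 A (Real.sqrt 8) := by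
  have F0 : Fam G Q Bool (fun b => if b then x else x⁻¹) Equiv.boolNot := by
    refine ⟨?_, ?_, ?_, ?_⟩
    · intro b
      cases b
      · exact Q.inv_mem hx
      · exact hx
    · intro b b' h
      cases b <;> cases b'
      · rfl
      · exact absurd h hx2
      · exact absurd h.symm hx2
      · rfl
    · intro b b'
      cases b <;> cases b' <;> simp
    · intro b
      cases b <;> simp
  have F := fam_step h0 h1 hc hi F0
  set f : Bool × Bool → G := fun p => (g0 * (if p.1 then x else x⁻¹) * g0⁻¹) *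
    (g1 * (if p.2 then x else x⁻¹) * g1⁻¹) with hf
  refine ⟨Real.sqrt |∑ p, d (f p)|, Real.sqrt_nonneg _, Bool × Bool, inferInstance, inferInstance,
    f, _, fun p => if p.1 = false ∧ p.2 = false then -1 else 1, F, rfl, ?_, ?_, ?_⟩
  · intro p
    show (if p.1 = false ∧ p.2 = false then (-1 : ℝ) else 1) = 1 ∨
      (if p.1 = false ∧ p.2 = false then (-1 : ℝ) else 1) = -1
    split_ifs <;> simp
  · rw [Real.sq_sqrt (abs_nonneg _)]
    have := le_abs_self (∑ p, d (f p))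
    have := abs_nonneg (∑ p, d (f p))
    push_cast
    linarith
  · have h := norm_four (g0 * x * g0⁻¹) (g1 * x * g1⁻¹)
    have e0 : (g0 * x * g0⁻¹)⁻¹ = g0 * x⁻¹ * g0⁻¹ := by group
    have e1 : (g1 * x * g1⁻¹)⁻¹ = g1 * x⁻¹ * g1⁻¹ := by group
    rw [e0, e1] at h
    refine le_trans (le_of_eq ?_) h
    congr 1
    rw [Fintype.sum_prod_type, Fintype.sum_bool, Fintype.sum_bool, Fintype.sum_bool]
    simp only [hf]
    simp
    abel

lemma st_all (d : G → ℝ) (hd : ND d)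
    (h0 : ∀ q ∈ Q, g0 * q * g0⁻¹ ∈ Q) (h1 : ∀ q ∈ Q, g1 * q * g1⁻¹ ∈ Q)
    (hc : ∀ q ∈ Q, ∀ r ∈ Q,
      (g0 * q * g0⁻¹) * (g1 * r * g1⁻¹) = (g1 * r * g1⁻¹) * (g0 * q * g0⁻¹))
    (hi : ∀ q ∈ Q, ∀ r ∈ Q, g0 * q * g0⁻¹ = g1 * r * g1⁻¹ → q = 1)
    (x : G) (hx : x ∈ Q) (hx2 : x⁻¹ ≠ x) : ∃ M : ℝ, 0 < M ∧ ∀ k : ℕ,
      St Q d (4 ^ (2 ^ k)) (Real.sqrt 2 ^ k * M) (Real.sqrt 8 ^ (2 ^ k)) := by
  obtain ⟨A, hA, S0⟩ := st_base d h0 h1 hc hi x hx hx2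
  set c : ℝ := 2 * Real.sqrt (d g0) + 2 * Real.sqrt (d g1) with hcdef
  have hc0 : 2 * Real.sqrt (d g0) ≤ c := by
    rw [hcdef]; linarith [Real.sqrt_nonneg (d g1)]
  have hc1 : 2 * Real.sqrt (d g1) ≤ c := by
    rw [hcdef]; linarith [Real.sqrt_nonneg (d g0)]
  have hcc : 0 ≤ c := by positivity
  set M : ℝ := A + 4 * c + 1 with hM
  have hs2 : 4 / 3 ≤ Real.sqrt 2 := by
    apply Real.le_sqrt_of_sq_le
    norm_num
  have hs1 : 1 ≤ Real.sqrt 2 := by linarith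
  have hAk : ∀ k : ℕ, 0 ≤ Real.sqrt 2 ^ k * M - 4 * c := by
    intro k
    have : 1 ≤ Real.sqrt 2 ^ k := one_le_pow₀ hs1
    have hM0 : 0 ≤ M := by positivity
    nlinarith
  have main : ∀ k : ℕ, St Q d (4 ^ (2 ^ k)) (Real.sqrt 2 ^ k * M - 4 * c)
      (Real.sqrt 8 ^ (2 ^ k)) := by
    intro k
    induction k with
    | zero =>
      obtain ⟨ι, i1, i2, f, σ, ε, F, hcd, hε, ha, hn⟩ := S0
      refine ⟨ι, i1, i2, f, σ, ε, F, by simpa using hcd, hε, ?_, by simpa using hn⟩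
      refine ha.trans ?_
      simp only [pow_zero, pow_one, one_mul]
      gcongr
      rw [hM]; linarith
    | succ k ih =>
      have := st_step d hd h0 h1 hc hi c hc0 hc1 (A' := Real.sqrt 2 ^ (k + 1) * M - 4 * c)
        (hAk k) (by
          rw [pow_succ]
          nlinarith) ih
      rw [← pow_add, ← pow_add, ← two_mul, ← pow_succ'] at this
      exact this
  refine ⟨M, by positivity, fun k => ?_⟩
  obtain ⟨ι, i1, i2, f, σ, ε, F, hcd, hε, ha, hn⟩ := main k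
  refine ⟨ι, i1, i2, f, σ, ε, F, hcd, hε, ?_, hn⟩
  refine ha.trans ?_
  have := hAk k
  gcongr
  linarith

/-- the lower bound -/
lemma st_low (d : G → ℝ) (C t : ℝ)
    (hC : ∀ (T S : Finset G) (c : G → ℂ), S ⊆ T →
      ‖∑ g ∈ S, (((Real.exp (-(t * d g)) : ℝ) : ℂ) * c g) • lam g‖ ≤ C * ‖∑ g ∈ T, c g • lam g‖)
    (hC0 : 0 < C) (ht : 0 < t) {n : ℕ} {A R : ℝ} (S : St Q d n A R) :
    n * Real.exp (-(t * A ^ 2)) ≤ 2 * C * R := by
  classical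
  obtain ⟨ι, i1, i2, f, σ, ε, F, rfl, hε, ha, hn⟩ := S
  have hNpos : (0 : ℝ) < Fintype.card ι := by exact_mod_cast Fintype.card_pos
  -- Jensen
  have j1 : (Fintype.card ι : ℝ) * Real.exp (-(t * A ^ 2)) ≤ ∑ i, Real.exp (-(t * d (f i))) := by
    have e : ∀ i, Real.exp (-(t * A ^ 2)) * (1 + (t * A ^ 2 - t * d (f i))) ≤
        Real.exp (-(t * d (f i))) := by
      intro i
      have a1 := Real.add_one_le_exp (t * A ^ 2 - t * d (f i))
      calc Real.exp (-(t * A ^ 2)) * (1 + (t * A ^ 2 - t * d (f i)))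
          ≤ Real.exp (-(t * A ^ 2)) * Real.exp (t * A ^ 2 - t * d (f i)) := by
            gcongr
            linarith
        _ = Real.exp (-(t * d (f i))) := by
            rw [← Real.exp_add]
            congr 1
            ring
    have s1 := Finset.sum_le_sum fun i (_ : i ∈ (Finset.univ : Finset ι)) => e i
    rw [← Finset.mul_sum] at s1
    have s2 : (Fintype.card ι : ℝ) ≤ ∑ i : ι, (1 + (t * A ^ 2 - t * d (f i))) := by
      rw [Finset.sum_add_distrib, Finset.sum_sub_distrib]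
      simp only [Finset.sum_const, Finset.card_univ, nsmul_eq_mul, mul_one]
      have h5 := mul_le_mul_of_nonneg_left ha ht.le
      rw [Finset.mul_sum] at h5
      have h6 : t * ((Fintype.card ι : ℝ) * A ^ 2) = (Fintype.card ι : ℝ) * (t * A ^ 2) := by ring
      rw [h6] at h5
      linarith
    refine le_trans ?_ s1
    rw [mul_comm]
    gcongr
  refine j1.trans ?_
  have l1 := low f F.comm (fun i => ((Real.exp (-(t * d (f i))) : ℝ) : ℂ))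
  have l2 : ‖∑ i, ((Real.exp (-(t * d (f i))) : ℝ) : ℂ)‖ = ∑ i, Real.exp (-(t * d (f i))) := by
    rw [← Complex.ofReal_sum, Complex.norm_real, Real.norm_eq_abs, abs_of_nonneg]
    exact Finset.sum_nonneg fun i _ => (Real.exp_pos _).le
  rw [l2] at l1
  refine l1.trans ?_
  -- signs
  let emb : ι ↪ G := ⟨f, F.inj⟩
  let c : G → ℂ := Function.extend f (fun i => ((ε i : ℝ) : ℂ)) 0
  have hcf : ∀ i, c (f i) = ((ε i : ℝ) : ℂ) := fun i => F.inj.extend_apply _ _ i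
  have hT : ∑ g ∈ Finset.univ.map emb, c g • lam g = ∑ i, ((ε i : ℝ) : ℂ) • lam (f i) := by
    rw [Finset.sum_map]
    refine Finset.sum_congr rfl fun i _ => ?_
    show c (f i) • lam (f i) = _
    rw [hcf]
  have hS : ∀ P : Finset ι, ‖∑ i ∈ P, (((Real.exp (-(t * d (f i))) : ℝ) : ℂ) *
      ((ε i : ℝ) : ℂ)) • lam (f i)‖ ≤ C * R := by
    intro P
    have := hC (Finset.univ.map emb) (P.map emb) c
      (Finset.map_subset_map.2 (Finset.subset_univ P))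
    rw [hT, Finset.sum_map] at this
    refine le_trans (le_of_eq ?_) (this.trans (by gcongr))
    congr 1
    refine Finset.sum_congr rfl fun i _ => ?_
    show _ = (((Real.exp (-(t * d (f i))) : ℝ) : ℂ) * c (f i)) • lam (f i)
    rw [hcf]
  have hsplit : ∑ i, ((Real.exp (-(t * d (f i))) : ℝ) : ℂ) • lam (f i) =
      (∑ i ∈ Finset.univ.filter (fun i => ε i = 1), (((Real.exp (-(t * d (f i))) : ℝ) : ℂ) *
        ((ε i : ℝ) : ℂ)) • lam (f i)) -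
      (∑ i ∈ Finset.univ.filter (fun i => ¬ ε i = 1), (((Real.exp (-(t * d (f i))) : ℝ) : ℂ) *
        ((ε i : ℝ) : ℂ)) • lam (f i)) := by
    rw [← Finset.sum_filter_add_sum_filter_not Finset.univ (fun i => ε i = 1), sub_eq_add_neg,
      ← Finset.sum_neg_distrib]
    congr 1
    · refine Finset.sum_congr rfl fun i hi => ?_
      rw [Finset.mem_filter] at hi
      rw [hi.2]
      simp
    · refine Finset.sum_congr rfl fun i hi => ?_
      rw [Finset.mem_filter] at hi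
      rw [(hε i).resolve_left hi.2]
      simp
  rw [hsplit]
  refine (norm_sub_le _ _).trans ?_
  have := hS (Finset.univ.filter (fun i => ε i = 1))
  have := hS (Finset.univ.filter (fun i => ¬ ε i = 1))
  linarith

end conf

/-- the criterion -/
theorem not_heat_of (G : Type) [Group G] (Q : Subgroup G) (x g0 g1 : G) (hx : x ∈ Q)
    (hx2 : x⁻¹ ≠ x) (h0 : ∀ q ∈ Q, g0 * q * g0⁻¹ ∈ Q) (h1 : ∀ q ∈ Q, g1 * q * g1⁻¹ ∈ Q)
    (hc : ∀ q ∈ Q, ∀ r ∈ Q,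
      (g0 * q * g0⁻¹) * (g1 * r * g1⁻¹) = (g1 * r * g1⁻¹) * (g0 * q * g0⁻¹))
    (hi : ∀ q ∈ Q, ∀ r ∈ Q, g0 * q * g0⁻¹ = g1 * r * g1⁻¹ → q = 1) : ¬ Heat G := by
  rintro ⟨d, hd, hh⟩
  obtain ⟨M, hM, hSt⟩ := st_all d hd h0 h1 hc hi x hx hx2
  set t : ℝ := Real.log (6 / 5) / M ^ 2 with ht
  have hlog : 0 < Real.log (6 / 5) := Real.log_pos (by norm_num)
  have htpos : 0 < t := by positivity
  obtain ⟨Mt, hMt1, hMt2⟩ := hh t htpos
  obtain ⟨C, hC0, hC⟩ := Pool.Agent.R796.HT.BS G d t Mt hMt1 hMt2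
  have key : ∀ k : ℕ, (10 / 9 : ℝ) ^ (2 ^ k) ≤ 2 * C := by
    intro k
    have h := st_low d C t hC hC0 htpos (hSt k)
    have e1 : t * (Real.sqrt 2 ^ k * M) ^ 2 = Real.log (6 / 5) * 2 ^ k := by
      rw [mul_pow, ← pow_mul, mul_comm k 2, pow_mul, Real.sq_sqrt (by norm_num), ht]
      field_simp
    have e2 : Real.exp (-(t * (Real.sqrt 2 ^ k * M) ^ 2)) = (5 / 6 : ℝ) ^ (2 ^ k) := by
      rw [e1, Real.exp_neg, show Real.log (6 / 5) * 2 ^ k = ((2 ^ k : ℕ) : ℝ) * Real.log (6 / 5) by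
        push_cast; ring, Real.exp_nat_mul, Real.exp_log (by norm_num), ← inv_pow]
      norm_num
    rw [e2] at h
    push_cast at h
    rw [← mul_pow] at h
    have h8 : Real.sqrt 8 ≤ 3 := by
      rw [Real.sqrt_le_left (by norm_num)]
      norm_num
    have h9 : Real.sqrt 8 ^ (2 ^ k) ≤ 3 ^ (2 ^ k) := by gcongr
    have h10 : (4 * (5 / 6) : ℝ) ^ (2 ^ k) ≤ 2 * C * 3 ^ (2 ^ k) := h.trans (by gcongr)
    have h11 : (4 * (5 / 6) : ℝ) ^ (2 ^ k) = (10 / 9) ^ (2 ^ k) * 3 ^ (2 ^ k) := by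
      rw [← mul_pow]
      norm_num
    rw [h11] at h10
    exact le_of_mul_le_mul_right h10 (by positivity)
  have htend : Filter.Tendsto (fun k : ℕ => (10 / 9 : ℝ) ^ k) Filter.atTop Filter.atTop :=
    tendsto_pow_atTop_atTop_of_one_lt (by norm_num)
  obtain ⟨m, hm⟩ := (htend.eventually (Filter.eventually_gt_atTop (2 * C))).exists
  have h1 : (10 / 9 : ℝ) ^ m ≤ (10 / 9) ^ (2 ^ m) :=
    pow_le_pow_right₀ (by norm_num) (Nat.lt_two_pow_self).le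
  exact absurd (h1.trans (key m)) (not_le.2 hm)

end Pool.Agent.Run7.h986.TF
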