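import Pool.Agent.R499.HT.Defs

set_option autoImplicit false

namespace Pool.Agent.Run7.h986.TF

open Pool.Agent.R499.HT

section low
variable {G : Type} [Group G]

lemma lam_mul (g h : G) : lam (g * h) = lam g * lam h := by
  ext f x
  rw [ContinuousLinearMap.mul_apply]
  rw [lam_apply, lam_apply, lam_apply]
  congr 1
  group

lemma poly_exp {n : ℕ} {a b : ℝ} (ha : 0 ≤ a) (hb : 0 ≤ b)
    (h : ∀ m : ℕ, a ^ m ≤ ((m : ℝ) + 1) ^ n * b ^ m) : a ≤ b := by
  by_contra hlt
  push Not at hlt
  rcases hb.eq_or_lt with hb0 | hb0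
  · have := h 1
    rw [← hb0] at this
    simp at this
    linarith
  · have hr : 1 < a / b := by rw [one_lt_div hb0]; exact hlt
    have h1 : ∀ m : ℕ, (a / b) ^ m ≤ ((m : ℝ) + 1) ^ n := by
      intro m
      rw [div_pow, div_le_iff₀ (by positivity)]
      exact h m
    have ht := tendsto_pow_const_div_const_pow_of_one_lt n hr
    have ht' := (ht.comp (Filter.tendsto_add_atTop_nat 1)).eventually
      (gt_mem_nhds (show (0 : ℝ) < 1 / (a / b) by positivity))
    obtain ⟨m, hm⟩ := ht'.exists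
    simp only [Function.comp] at hm
    have h2 := h1 m
    have h3 : (0 : ℝ) < (a / b) := by positivity
    rw [pow_succ, div_lt_div_iff₀ (by positivity) h3] at hm
    push_cast at hm
    have h4 : (a / b) * (a / b) ^ m ≤ (a / b) * ((m : ℝ) + 1) ^ n :=
      mul_le_mul_of_nonneg_left h2 h3.le
    nlinarith

variable {ι : Type} [Fintype ι] [DecidableEq ι]

/-- finite sets of products -/
lemma exists_P (f : ι → G) (hc : ∀ i j, f i * f j = f j * f i) :
    ∃ P : ℕ → Finset G, (1 : G) ∈ P 0 ∧ (∀ m i h, h ∈ P m → f i * h ∈ P (m + 1)) ∧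
      ∀ m, (P m).card ≤ (m + 1) ^ Fintype.card ι := by
  classical
  have hc' : ∀ x ∈ Set.range f, ∀ y ∈ Set.range f, x * y = y * x := by
    rintro _ ⟨i, rfl⟩ _ ⟨j, rfl⟩
    exact hc i j
  letI : CommGroup (Subgroup.closure (Set.range f)) := Subgroup.closureCommGroupOfComm hc'
  let F : ι → Subgroup.closure (Set.range f) := fun i => ⟨f i, Subgroup.subset_closure ⟨i, rfl⟩⟩
  let Φ : (ι → ℕ) → G := fun n => ((∏ i, F i ^ n i : Subgroup.closure (Set.range f)) : G)
  refine ⟨fun m => (Fintype.piFinset fun _ : ι => Finset.range (m + 1)).image Φ, ?_, ?_, ?_⟩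
  · rw [Finset.mem_image]
    refine ⟨fun _ => 0, ?_, ?_⟩
    · simp
    · simp [Φ]
  · intro m i h hh
    rw [Finset.mem_image] at hh ⊢
    obtain ⟨n, hn, rfl⟩ := hh
    refine ⟨fun j => (if j = i then 1 else 0) + n j, ?_, ?_⟩
    · rw [Fintype.mem_piFinset] at hn ⊢
      intro j
      have := hn j
      rw [Finset.mem_range] at this ⊢
      split_ifs <;> omega
    · have : (∏ j, F j ^ ((if j = i then 1 else 0) + n j)) = F i * ∏ j, F j ^ n j := by
        simp only [pow_add, Finset.prod_mul_distrib]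
        congr 1
        simp [pow_ite]
      show ((∏ j, F j ^ ((if j = i then 1 else 0) + n j) : Subgroup.closure (Set.range f)) : G) =
        f i * ((∏ j, F j ^ n j : Subgroup.closure (Set.range f)) : G)
      rw [this]
      rfl
  · intro m
    refine Finset.card_image_le.trans ?_
    rw [Fintype.card_piFinset]
    simp

theorem low (f : ι → G) (hc : ∀ i j, f i * f j = f j * f i) (w : ι → ℂ) :
    ‖∑ i, w i‖ ≤ ‖∑ i, w i • lam (f i)‖ := by
  classical
  obtain ⟨P, hP0, hP1, hP2⟩ := exists_P f hc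
  set y : L2 G →L[ℂ] L2 G := ∑ i, w i • lam (f i) with hy
  have hstep : ∀ (v : L2 G) (h : G), (y v) h = ∑ i, w i * v ((f i)⁻¹ * h) := by
    intro v h
    rw [hy, ← bas_inner, ContinuousLinearMap.sum_apply, inner_sum]
    refine Finset.sum_congr rfl fun i _ => ?_
    rw [ContinuousLinearMap.smul_apply, inner_smul_right, bas_inner, lam_apply]
  have key : ∀ m : ℕ, (∀ h ∉ P m, ((y ^ m) (bas G 1)) h = 0) ∧
      ∑ h ∈ P m, ((y ^ m) (bas G 1)) h = (∑ i, w i) ^ m := by
    intro m
    induction m with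
    | zero =>
      have hb : ∀ h : G, (bas G 1) h = if h = 1 then 1 else 0 := by
        intro h
        rw [← bas_inner, orthonormal_iff_ite.1 (bas G).orthonormal]
      constructor
      · intro h hh
        rw [pow_zero, ContinuousLinearMap.one_apply, hb, if_neg]
        rintro rfl
        exact hh hP0
      · simp only [pow_zero, ContinuousLinearMap.one_apply, hb]
        rw [Finset.sum_ite_eq' (P 0) (1 : G), if_pos hP0]
    | succ m ih =>
      obtain ⟨i1, i2⟩ := ih
      have e : ∀ h, ((y ^ (m + 1)) (bas G 1)) h =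
          ∑ i, w i * ((y ^ m) (bas G 1)) ((f i)⁻¹ * h) := by
        intro h
        rw [pow_succ', ContinuousLinearMap.mul_apply, hstep]
      constructor
      · intro h hh
        rw [e]
        refine Finset.sum_eq_zero fun i _ => ?_
        rw [i1, mul_zero]
        intro h1
        have := hP1 m i _ h1
        rw [mul_inv_cancel_left] at this
        exact hh this
      · simp only [e]
        rw [Finset.sum_comm, pow_succ', Finset.sum_mul]
        refine Finset.sum_congr rfl fun i _ => ?_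
        rw [← Finset.mul_sum]
        congr 1
        rw [← i2]
        symm
        have h1 : (P m).image (fun h => f i * h) ⊆ P (m + 1) := by
          intro h hh
          rw [Finset.mem_image] at hh
          obtain ⟨k, hk, rfl⟩ := hh
          exact hP1 m i k hk
        rw [← Finset.sum_subset h1]
        · rw [Finset.sum_image]
          · refine Finset.sum_congr rfl fun h _ => ?_
            rw [inv_mul_cancel_left]
          · intro a _ b _ hab
            exact mul_left_cancel hab
        · intro h _ hh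
          apply i1
          intro h2
          apply hh
          rw [Finset.mem_image]
          exact ⟨_, h2, by rw [mul_inv_cancel_left]⟩
  have hn1 : ‖bas G 1‖ = 1 := (bas G).orthonormal.1 1
  have hpw : ∀ m : ℕ, ‖(y ^ m) (bas G 1)‖ ≤ ‖y‖ ^ m := by
    intro m
    induction m with
    | zero => simp [hn1]
    | succ m ih =>
      rw [pow_succ', ContinuousLinearMap.mul_apply, pow_succ']
      exact (ContinuousLinearMap.le_opNorm _ _).trans (by gcongr)
  have hb : ∀ m : ℕ, (‖∑ i, w i‖ ^ 2) ^ m ≤ ((m : ℝ) + 1) ^ Fintype.card ι * (‖y‖ ^ 2) ^ m := by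
    intro m
    have h1 := (key m).2
    have h2 : ‖∑ i, w i‖ ^ m ≤ ∑ h ∈ P m, ‖((y ^ m) (bas G 1)) h‖ := by
      rw [← norm_pow, ← h1]
      exact norm_sum_le _ _
    have h3 : (∑ h ∈ P m, ‖((y ^ m) (bas G 1)) h‖) ^ 2 ≤
        (P m).card * ∑ h ∈ P m, ‖((y ^ m) (bas G 1)) h‖ ^ 2 := sq_sum_le_card_mul_sum_sq
    have h4 : ∑ h ∈ P m, ‖((y ^ m) (bas G 1)) h‖ ^ 2 ≤ ‖(y ^ m) (bas G 1)‖ ^ 2 := by
      have := (bas G).orthonormal.sum_inner_products_le ((y ^ m) (bas G 1)) (s := P m)
      simpa only [bas_inner] using this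
    have h5 : ‖(y ^ m) (bas G 1)‖ ≤ ‖y‖ ^ m := hpw m
    have h6 : ((P m).card : ℝ) ≤ ((m : ℝ) + 1) ^ Fintype.card ι := by
      exact_mod_cast hP2 m
    have h7 : 0 ≤ ‖∑ i, w i‖ ^ m := by positivity
    calc (‖∑ i, w i‖ ^ 2) ^ m = (‖∑ i, w i‖ ^ m) ^ 2 := by rw [← pow_mul, ← pow_mul, mul_comm]
      _ ≤ (∑ h ∈ P m, ‖((y ^ m) (bas G 1)) h‖) ^ 2 := by gcongr
      _ ≤ _ := h3
      _ ≤ ((m : ℝ) + 1) ^ Fintype.card ι * (‖y‖ ^ m) ^ 2 := by
        have h8 : ‖(y ^ m) (bas G 1)‖ ^ 2 ≤ (‖y‖ ^ m) ^ 2 := by gcongr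
        have h9 := h4.trans h8
        gcongr
      _ = _ := by rw [← pow_mul, ← pow_mul, mul_comm m 2]
  have h10 := poly_exp (by positivity) (by positivity) hb
  exact (pow_le_pow_iff_left₀ (norm_nonneg _) (norm_nonneg _) (by norm_num)).1 h10

end low

end Pool.Agent.Run7.h986.TF
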